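import Pool.Agent.Lib.MP_5c57f5_nt.ModP
import Pool.Agent.Lib.MP_5c57f5_nt.Jacobi

/-!
The sum with ratio `-8640`: modulo `p` for every prime `p > 5`, modulo `p^2` for `p = 2 mod 3`.
-/

namespace Pool.Agent.Lib.MP_5c57f5_nt_parked.ModuloPrime

open Finset

/-- `S_p`, the sum over `0 ≤ k ≤ p - 1` of `binom(2k, k)^2 * binom(3k, k) / (-8640)^k`. -/
def S (p : ℕ) : ℚ :=
  ∑ k ∈ range p, ((2 * k).choose k : ℚ) ^ 2 * ((3 * k).choose k : ℚ) / (-8640) ^ k

/-- `a ≡ b (mod p^e)`: `a - b = p^e c` with `c` rational of denominator prime to `p`. -/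
def Cong (p e : ℕ) (a b : ℚ) : Prop := ∃ c : ℚ, a - b = (p : ℚ) ^ e * c ∧ ¬ p ∣ c.den

lemma S_mul (p : ℕ) : S p * (((-8640) ^ (p - 1) : ℤ) : ℚ) = ((MP5c57f5.N8 p : ℤ) : ℚ) := by
  unfold S MP5c57f5.N8 MP8cc25e.sg
  push_cast
  rw [sum_mul]
  apply sum_congr rfl
  intro n hn
  rw [mem_range] at hn
  have h0 : ((-8640 : ℚ)) ^ n ≠ 0 := pow_ne_zero _ (by norm_num)
  have e : (-8640 : ℚ) ^ (p - 1) = (-8640) ^ (p - 1 - n) * (-8640) ^ n := by
    rw [← pow_add]
    congr 1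
    omega
  rw [e]
  field_simp

lemma not_dvd (p : ℕ) (hp : p.Prime) (h5 : 5 < p) : ¬ (p : ℤ) ∣ (-8640) ^ (p - 1) := by
  have hpz : Prime (p : ℤ) := Nat.prime_iff_prime_int.mp hp
  intro h
  have h1 := hpz.dvd_of_dvd_pow h
  rw [show (-8640 : ℤ) = -(2 ^ 6 * 3 ^ 3 * 5) by norm_num, dvd_neg] at h1
  have small : ∀ q : ℕ, q < 6 → 1 < q → ¬ (p : ℤ) ∣ q := by
    intro q h1 h2 h3
    have := Nat.le_of_dvd (by omega) (Int.natCast_dvd_natCast.mp h3)
    omega
  rcases hpz.dvd_or_dvd h1 with h2 | h2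
  · rcases hpz.dvd_or_dvd h2 with h3 | h3
    · exact small 2 (by norm_num) (by norm_num) (by exact_mod_cast hpz.dvd_of_dvd_pow h3)
    · exact small 3 (by norm_num) (by norm_num) (by exact_mod_cast hpz.dvd_of_dvd_pow h3)
  · exact small 5 (by norm_num) (by norm_num) (by exact_mod_cast h2)

lemma cong_of (p : ℕ) (hp : p.Prime) (h5 : 5 < p) (e : ℕ) (a : ℤ)
    (h : (p : ℤ) ^ e ∣ MP5c57f5.N8 p - a * (-8640) ^ (p - 1)) : Cong p e (S p) a := by
  obtain ⟨c, hc⟩ := h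
  have hd := not_dvd p hp h5
  set d : ℤ := (-8640) ^ (p - 1) with hdd
  have hd0 : (d : ℚ) ≠ 0 := by
    intro h0
    have h1 : d = 0 := by exact_mod_cast h0
    exact hd (h1 ▸ dvd_zero _)
  refine ⟨(c : ℚ) / (d : ℚ), ?_, ?_⟩
  · have hc' : ((MP5c57f5.N8 p : ℤ) : ℚ) - a * d = (p : ℚ) ^ e * c := by exact_mod_cast hc
    rw [← S_mul, ← hdd] at hc'
    rw [← mul_div_assoc, eq_div_iff hd0]
    linear_combination hc'
  · intro hdvd
    have h1 := Rat.den_dvd c d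
    rw [Rat.divInt_eq_div] at h1
    exact hd ((Int.natCast_dvd_natCast.mpr hdvd).trans h1)

theorem result (p : ℕ) (hp : p.Prime) (h5 : 5 < p) :
    (p % 3 = 2 → Cong p 2 (S p) 0) ∧
    ∀ x y : ℤ, (p : ℤ) = x ^ 2 + 3 * y ^ 2 →
      ((10 : ℤ) ^ ((p - 1) / 3) ≡ 1 [ZMOD p] → Cong p 1 (S p) (4 * x ^ 2 - 2 * p)) ∧
      (2 * (10 : ℤ) ^ ((p - 1) / 3) * y ≡ -y - x [ZMOD p] →
        Cong p 1 (S p) (p - 2 * x ^ 2 + 6 * x * y)) ∧
      (2 * (10 : ℤ) ^ ((p - 1) / 3) * y ≡ -y + x [ZMOD p] →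
        Cong p 1 (S p) (p - 2 * x ^ 2 - 6 * x * y)) := by
  have hpz : Prime (p : ℤ) := Nat.prime_iff_prime_int.mp hp
  have hf : Fact p.Prime := ⟨hp⟩
  constructor
  · intro h3
    have h1 := cong_of p hp h5 2 0 (by simpa using MP5c57f5.inert_sq p hp h5 h3)
    simpa using h1
  · intro x y hxy
    obtain ⟨m, hm⟩ : ∃ m, 3 * m + 1 = p := by
      have h1 : (p : ℤ) % 3 = 1 := by
        have h2 : (p : ℤ) % 3 = x ^ 2 % 3 := by omega
        have h3 : x % 3 = 0 ∨ x % 3 = 1 ∨ x % 3 = 2 := by omega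
        rcases h3 with h3 | h3 | h3
        · exfalso
          have h4 : (3 : ℤ) ∣ p := by
            rw [hxy]
            exact dvd_add (Dvd.dvd.pow (Int.dvd_of_emod_eq_zero h3) (by norm_num)) (dvd_mul_right _ _)
          have h6 : 3 ∣ p := by exact_mod_cast h4
          have h7 := (Nat.prime_dvd_prime_iff_eq Nat.prime_three hp).mp h6
          omega
        · rw [h2, pow_two, Int.mul_emod, h3]
          norm_num
        · rw [h2, pow_two, Int.mul_emod, h3]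
          norm_num
      exact ⟨p / 3, by omega⟩
    have hm' : (p - 1) / 3 = m := by omega
    rw [hm']
    have hy : ¬ (p : ℤ) ∣ y := by
      intro h
      have h1 : (p : ℤ) ∣ x ^ 2 := by
        have : x ^ 2 = p - 3 * y ^ 2 := by linarith
        rw [this]
        exact dvd_sub dvd_rfl (Dvd.dvd.mul_left (Dvd.dvd.pow h (by norm_num)) _)
      obtain ⟨a, ha⟩ := hpz.dvd_of_dvd_pow h1
      obtain ⟨b, hb⟩ := h
      rw [ha, hb] at hxy
      have h2 : (p : ℤ) * 1 = p * (p * (a ^ 2 + 3 * b ^ 2)) := by linear_combination hxy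
      have h3 := mul_left_cancel₀ hpz.ne_zero h2
      exact hpz.not_isUnit (isUnit_of_dvd_one ⟨_, h3⟩)
    have hN := MP5c57f5.split_mod p hp h5 m hm
    have hC := MP5c57f5.choose_sq p hp (by omega) m hm x y hxy
    have h8 : (p : ℤ) ∣ (-8640) ^ (p - 1) - 1 := by
      have h1 : IsCoprime (-8640 : ℤ) p := by
        rw [isCoprime_comm, Prime.coprime_iff_not_dvd hpz]
        intro h
        exact not_dvd p hp h5 (Dvd.dvd.pow h (by omega))
      exact (Int.ModEq.pow_card_sub_one_eq_one hp h1).symm.dvd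
    have main : ∀ A : ℤ, (p : ℤ) ∣ 4 * x ^ 2 * 10 ^ m - A → Cong p 1 (S p) A := by
      intro A hA
      apply cong_of p hp h5
      rw [pow_one]
      have e : MP5c57f5.N8 p - A * (-8640) ^ (p - 1)
          = (MP5c57f5.N8 p - ((p / 2).choose m : ℤ) ^ 2 * 10 ^ m)
            + (((p / 2).choose m : ℤ) ^ 2 - 4 * x ^ 2) * 10 ^ m
            + (4 * x ^ 2 * 10 ^ m - A) - A * ((-8640) ^ (p - 1) - 1) := by ring
      rw [e]
      exact dvd_sub (dvd_add (dvd_add hN (Dvd.dvd.mul_right hC _)) hA) (Dvd.dvd.mul_left h8 _)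
    refine ⟨?_, ?_, ?_⟩
    · intro h
      have h1 := main (4 * x ^ 2 - 2 * p) (by
        obtain ⟨c, hc⟩ := h.symm.dvd
        exact ⟨4 * x ^ 2 * c + 2, by linear_combination (4 * x ^ 2) * hc⟩)
      push_cast at h1
      exact h1
    · intro h
      have h1 := main (p - 2 * x ^ 2 + 6 * x * y) (by
        have h2 : (p : ℤ) ∣ y * (4 * x ^ 2 * 10 ^ m - (p - 2 * x ^ 2 + 6 * x * y)) := by
          obtain ⟨c, hc⟩ := h.symm.dvd
          exact ⟨2 * x ^ 2 * c - y - 2 * x, by linear_combination (2 * x ^ 2) * hc + 2 * x * hxy⟩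
        rcases hpz.dvd_or_dvd h2 with h3 | h3
        · exact absurd h3 hy
        · exact h3)
      push_cast at h1
      exact h1
    · intro h
      have h1 := main (p - 2 * x ^ 2 - 6 * x * y) (by
        have h2 : (p : ℤ) ∣ y * (4 * x ^ 2 * 10 ^ m - (p - 2 * x ^ 2 - 6 * x * y)) := by
          obtain ⟨c, hc⟩ := h.symm.dvd
          exact ⟨2 * x ^ 2 * c - y + 2 * x, by linear_combination (2 * x ^ 2) * hc - 2 * x * hxy⟩
        rcases hpz.dvd_or_dvd h2 with h3 | h3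
        · exact absurd h3 hy
        · exact h3)
      push_cast at h1
      exact h1

end Pool.Agent.Lib.MP_5c57f5_nt_parked.ModuloPrime
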